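import Pool.Agent.Helper52.CM.Sep

/-!
# Symmetric squares of Cantor manifolds need not be Cantor manifolds

There is a compact metric space `E` which is a two-dimensional Cantor manifold, while its second
symmetric product, the space of nonempty subsets with at most two points in the Hausdorff metric,
has covering dimension four and is separated by a closed subset of covering dimension at most two.

Idea. For `p = 2, 3` one builds a two-dimensional compactum `P` with a boundary circle, in the
style of Pontryagin: every map of a closed subset to the circle has a `p`-th power that extends
over `P`, while the identification of the boundary circle does not extend. A minimal closed set
over which it does not extend is not separated by a zero-dimensional closed set. The space `E`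
consists of `P_2 × {c}`, a square made of two boundary arcs, and `{b} × P_3`. The product of the
two pieces has dimension three only, because the two torsion numbers are coprime, and it is open
in the symmetric square away from the square. A partition around a point of the product
`P_2 × P_3` is then a closed set of dimension at most two that separates the symmetric square,
which has dimension four since it contains the product of two disjoint squares.
-/

namespace Pool.Agent.Results.MP_54123e_gt.SymSquare

open Pool.Agent.Helper52.CM

/-- There is a two-dimensional Cantor manifold whose second symmetric product has dimension four
and is separated by a closed set of dimension at most two. -/
theorem result : ∃ (E : Type) (_ : MetricSpace E) (_ : CompactSpace E), IsCantorManifold E 2 ∧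
    Dim (SymProd E 2) = 4 ∧ ∃ C : Set (SymProd E 2), IsClosed C ∧ Dim C ≤ 2 ∧
      ¬ IsPreconnected Cᶜ := main

end Pool.Agent.Results.MP_54123e_gt.SymSquare
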